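import Mathlib
import Pool.Agent.Lib.H13R.Main
import Pool.Agent.Lib.H55P.Stm
import Pool.Agent.Lib.H55P.SD
import Pool.Agent.Lib.H16C.Stm
import Pool.Agent.Lib.H28T.XMain

/-! # H19A: statement of the theorem on supersingular cyclotomic towers (MP_f50388_nt, theorem (A)) -/

open NumberField IsDedekindDomain WeierstrassCurve

namespace H19A

open H55P (IQ)
open H55K (GoodAt)
open H55K.TQ

/-- The prime number p is inert in F. -/
def InertQ (F : Type) [Field F] [NumberField F] (p : ℕ) : Prop := (Ideal.span {(p : 𝓞 F)}).IsPrime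

/-- The completions of M above p are contained in the unramified quadratic extension of the p-adic numbers (for p inert in F: p splits
completely in FM/F). -/
def SplitM (p : ℕ) (M : Type) [Field M] [NumberField M] : Prop :=
  ∀ w : HeightOneSpectrum (𝓞 M), (p : 𝓞 M) ∈ w.asIdeal → w.asIdeal.ramificationIdx ℤ = 1 ∧ Ideal.absNorm w.asIdeal ∣ p ^ 2

/-- K is the n-th layer of the cyclotomic extension of M with group the p-adic integers (p unramified in M): K has degree p^n over M and is
isomorphic over M to a subfield of the field of the p^(n+1)-th roots of unity over M. -/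
def Layer (p n : ℕ) (M K : Type) [Field M] [NumberField M] [Field K] [Algebra M K] : Prop :=
  Module.finrank M K = p ^ n ∧ Nonempty (K →ₐ[M] CyclotomicField (p ^ (n + 1)) M)

/-- The p-primary part of the Tate-Shafarevich group of W over K. -/
def ShaP (p : ℕ) (K : Type) [Field K] [NumberField K] (W : WeierstrassCurve K) : Type _ :=
  {z : H16C.Sha W.toAffine (AlgebraicClosure K) // ∃ k : ℕ, (p ^ k : ℕ) • z = 0}

/-- J_1 + ... + J_n with J_k the integral part of p^k/(p+1). -/
def JS (p n : ℕ) : ℕ := ∑ k ∈ Finset.range n, p ^ (k + 1) / (p + 1)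

open Classical in
/-- The conclusions over the n-th layer K: the group of points is finite of order prime to p; the p-primary part of the Tate-Shafarevich
group has order p^([M:ℚ](J_1 + ... + J_n)); the L-series of W over K (Mathlib: WeierstrassCurve.LSeries) converges absolutely for Re s > 3/2,
continues to Re s > 1/2, does not vanish at 1, and the analytic order of the Tate-Shafarevich group has the valuation of the order of the
p-primary part of the Tate-Shafarevich group, for all valuations above p. -/
structure AtLayer (p n : ℕ) (W : WeierstrassCurve ℤ) (M K : Type) [Field M] [NumberField M] [Field K] [NumberField K] : Prop where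
  pts : Finite (W⁄K).toAffine.Point ∧ ¬ p ∣ Nat.card (W⁄K).toAffine.Point
  sha : Finite (ShaP p K (W⁄K)) ∧ Nat.card (ShaP p K (W⁄K)) = p ^ (Module.finrank ℚ M * JS p n)
  per : ∃ L : PeriodPair, PerZ W L
  bsd : ∃ Λ : ℂ → ℂ, AnalyticOnNhd ℂ Λ {s | 1 / 2 < s.re} ∧
    (∀ s : ℂ, 3 / 2 < s.re →
      LSeriesSummable (fun n => (((W⁄K).LFunction n : ℤ) : ℂ)) s ∧ Λ s = (W⁄K).LSeries s) ∧
    Λ 1 ≠ 0 ∧
    ∀ L : PeriodPair, PerZ W L → ∀ V : ValuationSubring ℂ, V.valuation (p : ℂ) < 1 →
      V.valuation (shaG K W L (Λ 1)) = V.valuation ((Nat.card (ShaP p K (W⁄K)) : ℕ) : ℂ)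

/-- The base field M: p unramified with residue fields of order p or p^2, W bad at all primes of FM which divide the discriminant, and
(unit case) the rank part and the p-part of the conjecture over M with trivial p-Selmer group. -/
structure Base (F : Type) [Field F] [NumberField F] [IQ F] (p : ℕ) (W : WeierstrassCurve ℤ) (M : Type) [Field M] [NumberField M]
    (ιM : M →ₐ[ℚ] AlgebraicClosure F) : Prop where
  split : SplitM p M
  bad : H13R.BadM (W⁄(𝓞 F)) (KG F M ιM)
  unit : BSDPG p W M

/-- The theorem over the base field M. -/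
def TowerThm (F : Type) [Field F] [NumberField F] [IQ F] (p : ℕ) (W : WeierstrassCurve ℤ) : Prop :=
  ∀ (M : Type) [Field M] [NumberField M] (ιM : M →ₐ[ℚ] AlgebraicClosure F), Base F p W M ιM →
    ∀ (n : ℕ) (K : Type) [Field K] [NumberField K] [Algebra M K], Layer p n M K → AtLayer p n W M K

/-- Every finite p-group is a subgroup of the Galois group of a Galois extension M/F of degree a power of p to which the theorem
applies. -/
def Exist (F : Type) [Field F] [NumberField F] [IQ F] (p : ℕ) (W : WeierstrassCurve ℤ) : Prop :=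
  ∀ (H : Type) [Group H] [Finite H] (k : ℕ), Nat.card H = p ^ k →
    ∃ (M : Type) (_ : Field M) (_ : NumberField M) (_ : Algebra F M), IsGalois F M ∧ (∃ r : ℕ, Module.finrank F M = p ^ r) ∧
      (∃ φ : H →* (M ≃ₐ[F] M), Function.Injective φ) ∧ ∀ ιM : M →ₐ[ℚ] AlgebraicClosure F, Base F p W M ιM

/-- Every finite p-group is a subquotient of the Galois group over F of the field generated by F and a field M with a real place to which
the theorem applies. -/
def ExistReal (F : Type) [Field F] [NumberField F] [IQ F] (p : ℕ) (W : WeierstrassCurve ℤ) : Prop :=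
  ∀ (H : Type) [Group H] [Finite H] (k : ℕ), Nat.card H = p ^ k →
    ∃ (M : Type) (_ : Field M) (_ : NumberField M), 0 < InfinitePlace.nrRealPlaces M ∧ (∀ ιM : M →ₐ[ℚ] AlgebraicClosure F, Base F p W M ιM) ∧
      ∃ (N : Type) (_ : Field N) (_ : NumberField N) (_ : Algebra F N) (_ : Algebra M N),
        Module.finrank M N = 2 ∧ IsGalois ℚ N ∧ (∃ r : ℕ, Module.finrank F N = p ^ r) ∧ H28R.SubQ (N ≃ₐ[F] N) H

/-- Every layer exists. -/
def LayerEx (p : ℕ) : Prop :=
  ∀ (M : Type) [Field M] [NumberField M], SplitM p M → ∀ n : ℕ,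
    ∃ (K : Type) (_ : Field K) (_ : NumberField K) (_ : Algebra M K), Layer p n M K

end H19A
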