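import Mathlib
import Pool.Agent.Lib.SSG.Z.AM
import Pool.Agent.Lib.H28I.A1
import Pool.Agent.Lib.H55W.EZM
import Pool.Agent.Lib.H55K.EX2
import Pool.Agent.Lib.H55K.FC2
import Pool.Agent.Lib.H55K.FC3

/-! # H19A: the result (draft of Results/MP_f50388_nt/SupersingularTowers.lean) -/

open NumberField IsDedekindDomain WeierstrassCurve H55P H55K.TQ

namespace H19A

/-- W is a global minimal equation of an elliptic curve over the rationals with complex multiplication by the order of conductor f of F,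
of class number one (H55Y.Cond): its period lattice is a multiple of the lattice of this order. -/
def CM (F : Type) [Field F] [NumberField F] [IQ F] (W : WeierstrassCurve ℤ) : Prop :=
  W.Δ ≠ 0 ∧ H13D.MinZ W ∧ ∃ (f : ℕ) (Om : ℂ), H55Y.Cond F f ∧
    H55Y.PerO F f (-(eF F (W⁄(𝓞 F)).c₄) / 48) (-(eF F (W⁄(𝓞 F)).c₆) / 864) Om

/-- The conclusions for the prime p. -/
structure AtP (F : Type) [Field F] [NumberField F] [IQ F] (p : ℕ) (W : WeierstrassCurve ℤ) : Prop where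
  tower : TowerThm F p W
  exist : AnUnitG p W ℚ → Exist F p W
  real : AnUnitG p W ℚ → ExistReal F p W

theorem result_of (hL : SSG.LocAll) (hE : SSG.EcAll) :
    (∀ (F : Type) [Field F] [NumberField F] [IQ F] (W : WeierstrassCurve ℤ), CM F W →
      (∀ p : ℕ, p.Prime → 5 ≤ p → InertQ F p → ¬ (p : ℤ) ∣ W.Δ → AtP F p W) ∧
      (LNz W ℚ → {p : ℕ | p.Prime ∧ ¬ AnUnitG p W ℚ}.Finite)) ∧
    (∀ p : ℕ, p.Prime → 5 ≤ p → LayerEx p) ∧
    CM H55B.F EZ ∧ ∀ p : ℕ, p.Prime → 5 ≤ p → AnUnitG p EZ ℚ := by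
  have hcub : ∀ (F : Type) [Field F] [NumberField F] [IQ F], ∀ w : 𝓞 F, w ^ 2 + w + 1 = 0 → ∀ n : ℤ, n ≠ 0 →
      ∃ κ : 𝓞 F → 𝓞 F, H55W.PRC (𝓞 F) 3 n (3 * n) (27 * n) κ := fun F _ _ _ w hw n hn => H55W.cub_F F IQ.deg w hw n hn
  refine ⟨fun F _ _ _ W' hC => ⟨fun p hp h5 hI hd => ?_, fun hL' => ?_⟩, fun p hp h5 => H55Z.x1_layer hp (by omega),
    ⟨by rw [H55W.ezm_disc]; norm_num, H55W.ezm_min, ?_⟩, fun p hp h5 => H55K.TQ.ex_an hp h5⟩
  · obtain ⟨h1, h2, h3⟩ := SSG.final (SSG.al_all hL) hE F W' hC p hp h5 hI hd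
    exact ⟨h1, h2, h3⟩
  · rcases H55Y.y5_cases hC (hcub F) with ⟨Om, hper⟩ | ⟨W, Om, m, ψ, kap, e, t, u, lam, hΔ, hper, h⟩
    · obtain ⟨hΔ, hmin, -⟩ := hC
      obtain ⟨ψ, hH⟩ := H55W.base_all0 (hcub F) W' Om hΔ hper hmin
      refine ((prime_almost (W'⁄(𝓞 F)) hH.data.ell).union (an_almost hH hL')).subset fun p hp => ?_
      obtain ⟨h1, h2⟩ := hp
      by_cases h3 : PrimeH F (W'⁄(𝓞 F)) p
      · exact Or.inr ⟨h1, fun h4 => h2 h4⟩
      · exact Or.inl ⟨h1, h3⟩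
    · exact (H28I.almost_iso h hL').subset fun p hp => ⟨hp.1, fun h4 => hp.2 h4.2⟩
  · obtain ⟨Om, hper⟩ := H55W.ezm_per
    refine ⟨1, Om, Or.inl rfl, hper.ne, LF H55B.F, fun z => ?_, hper.g2, hper.g3⟩
    rw [H55P.mem_LF]
    constructor
    · rintro ⟨y, rfl⟩
      exact ⟨0, y, by rw [Int.cast_zero, zero_add, Nat.cast_one, one_mul]⟩
    · rintro ⟨a, y, rfl⟩
      exact ⟨(a : 𝓞 H55B.F) + y, by rw [map_add, map_intCast, Nat.cast_one, one_mul]⟩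

end H19A
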