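import Mathlib
import Pool.Agent.Lib.SSG.Z.AM
import Pool.Agent.Lib.H16S.V8
import Pool.Agent.Lib.H16S.S1
import Pool.Agent.Lib.SSG.LP.Main

/-! # H19A: the local facts -/

open NumberField IsDedekindDomain WeierstrassCurve

namespace H19A

open H55P (IQ Pt ac)
open H35P (WAB)
open H55K H55K.TQ

theorem loc_all : SSG.LocAll := by
  classical
  intro F _ _ _ W Om m ψ p hH hp hI A B j act hA hB dta hc V hV γ hγ hg
  have hpf : Fact p.Prime := ⟨hp.prime⟩
  have hin : Prime (p : 𝓞 F) := (Ideal.span_singleton_prime (Nat.cast_ne_zero.2 hp.prime.ne_zero)).1 hI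
  obtain ⟨i, hi⟩ := SSG.LP.exists_embC (F := F) V hV
  have hS : H16S.Sup act p := H16S.s1 hH hp hin hA hB dta
  exact H16S.locp dta hin hV i hi hS hc hγ hg

end H19A

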