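import Mathlib
import Pool.Agent.Lib.H19A.Res
import Pool.Agent.Lib.H19A.LA
import Pool.Agent.Lib.SSG.S.A4

/-! # H19A: the result without hypotheses -/

open NumberField IsDedekindDomain WeierstrassCurve H55P H55K.TQ

namespace H19A

theorem result_all :
    (∀ (F : Type) [Field F] [NumberField F] [IQ F] (W : WeierstrassCurve ℤ), CM F W →
      (∀ p : ℕ, p.Prime → 5 ≤ p → InertQ F p → ¬ (p : ℤ) ∣ W.Δ → AtP F p W) ∧
      (LNz W ℚ → {p : ℕ | p.Prime ∧ ¬ AnUnitG p W ℚ}.Finite)) ∧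
    (∀ p : ℕ, p.Prime → 5 ≤ p → LayerEx p) ∧
    CM H55B.F EZ ∧ ∀ p : ℕ, p.Prime → 5 ≤ p → AnUnitG p EZ ℚ := result_of loc_all SSG.S.ec_all

end H19A
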